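import Pool.Agent.helper34.NTA.Spec

/-!
# Project NTA (MP_4536c8_co), row DIV: `8` divides the order of the group
-/

set_option autoImplicit false

namespace Pool.Agent.NTA

open Equiv

theorem DIV : DIV_stmt := by
  intro H _ _ s sg hG
  have h1 := hG.four 0
  have h2 := hG.two 0
  have h4 : orderOf (s 0 * s (0 + 1)) = 2 ^ (1 + 1) :=
    orderOf_eq_prime_pow (p := 2) (n := 1) (by simpa using h2) (by simpa using h1)
  have hmem : s 0 * s (0 + 1) ∈ sg.ker := by
    rw [MonoidHom.mem_ker, map_mul, hG.sgn, hG.sgn]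
    rfl
  have h5 : 4 ∣ Nat.card sg.ker := by
    have h6 : orderOf (⟨s 0 * s (0 + 1), hmem⟩ : sg.ker) ∣ Nat.card sg.ker := orderOf_dvd_natCard _
    rw [Subgroup.orderOf_mk, h4] at h6
    exact h6
  have h7 : sg.ker.index = 2 := by
    rw [Subgroup.index_ker]
    have h8 : sg.range = ⊤ := by
      rw [MonoidHom.range_eq_top]
      intro u
      rcases Int.units_eq_one_or u with h | h
      · exact ⟨1, by rw [map_one, h]⟩
      · exact ⟨s 0, by rw [hG.sgn, h]⟩
    rw [h8]
    have h9 : Nat.card (⊤ : Subgroup ℤˣ) = Nat.card ℤˣ := Nat.card_congr Subgroup.topEquiv.toEquiv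
    rw [h9, Nat.card_eq_fintype_card]
    rfl
  have h10 := Subgroup.card_mul_index sg.ker
  rw [h7] at h10
  obtain ⟨k, hk⟩ := h5
  exact ⟨k, by rw [← h10, hk]; ring⟩

end Pool.Agent.NTA
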